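import Mathlib

set_option autoImplicit false

namespace Pool.Agent.Results.MP_493890_gt.Levels

open Set Filter Topology

/-- Functionally closed sets. -/
def FClosed {X : Type*} [TopologicalSpace X] (A : Set X) : Prop :=
  ∃ f : X → unitInterval, Continuous f ∧ A = f ⁻¹' {0}

/-- Functionally open sets. -/
def FOpen {X : Type*} [TopologicalSpace X] (A : Set X) : Prop :=
  ∃ f : X → unitInterval, Continuous f ∧ A = f ⁻¹' Ioc 0 1

/-- Functionally `F_σ` sets. -/
def FSigma {X : Type*} [TopologicalSpace X] (A : Set X) : Prop :=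
  ∃ Z : ℕ → Set X, (∀ n, FClosed (Z n)) ∧ A = ⋃ n, Z n

/-- Functionally `G_δ` sets. -/
def FDelta {X : Type*} [TopologicalSpace X] (A : Set X) : Prop :=
  ∃ Z : ℕ → Set X, (∀ n, FOpen (Z n)) ∧ A = ⋂ n, Z n

/-- `1`-embedded subsets. -/
def OneEmb {X : Type*} [TopologicalSpace X] (E : Set X) : Prop :=
  (∀ A : Set E, FSigma A → ∃ B : Set X, FSigma B ∧ A = Subtype.val ⁻¹' B) ∧
  (∀ A : Set E, FDelta A → ∃ B : Set X, FDelta B ∧ A = Subtype.val ⁻¹' B)

inductive Y
  | z (a : ℝ)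
  | b (j : ℕ) (s : ℕ ↪ ℝ)
  | i (j : ℕ) (s : ℕ ↪ ℝ) (n : ℕ)

instance : TopologicalSpace Y where
  IsOpen U := (∀ a, Y.z a ∈ U → ∀ᶠ j in atTop, ∀ (s : ℕ ↪ ℝ) (n : ℕ), s n = a → Y.i j s n ∈ U) ∧
    ∀ j s, Y.b j s ∈ U → ∀ᶠ n in hyperfilter ℕ, Y.i j s n ∈ U
  isOpen_univ := by simp
  isOpen_inter := fun s t hs ht => ⟨fun a h => ((hs.1 a h.1).and (ht.1 a h.2)).mono
    fun j hj s n e => ⟨hj.1 s n e, hj.2 s n e⟩, fun j s h => (hs.2 j s h.1).and (ht.2 j s h.2)⟩
  isOpen_sUnion := fun S hS => ⟨fun a ⟨W, hW, h⟩ => ((hS W hW).1 a h).mono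
    fun j hj s n e => ⟨W, hW, hj s n e⟩, fun j s ⟨W, hW, h⟩ => ((hS W hW).2 j s h).mono
    fun n hn => ⟨W, hW, hn⟩⟩

lemma ne_ev (m : ℕ) : ∀ᶠ n in hyperfilter ℕ, n ≠ m :=
  (eventually_ne_atTop m).filter_mono Nat.hyperfilter_le_atTop

lemma clopen_z (a : ℝ) (k : ℕ) :
    IsClopen {y | y = Y.z a ∨ ∃ (j : ℕ) (s : ℕ ↪ ℝ) (n : ℕ), k ≤ j ∧ s n = a ∧ y = Y.i j s n} := by
  refine ⟨⟨⟨fun c hc => Eventually.of_forall ?_, fun j s _ => ?_⟩⟩, ⟨fun c hc => ?_, by simp⟩⟩
  · rintro j s n rfl (h | ⟨j', s', n', -, rfl, h⟩)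
    · cases h
    · cases h; simp at hc
  · by_cases h : ∃ m, s m = a
    · obtain ⟨m, rfl⟩ := h
      filter_upwards [ne_ev m]
      rintro n hn (h | ⟨j', s', n', -, e, h⟩)
      · cases h
      · cases h; exact hn (s.injective e)
    · refine Eventually.of_forall ?_
      rintro n (h' | ⟨j', s', n', -, e, h'⟩)
      · cases h'
      · cases h'; exact h ⟨n, e⟩
  · have : c = a := by simpa using hc
    subst this
    filter_upwards [eventually_ge_atTop k] with j hj s n e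
    exact Or.inr ⟨j, s, n, hj, e, rfl⟩

lemma clopen_b (j : ℕ) (s : ℕ ↪ ℝ) {W : Set ℕ} (hW : W ∈ hyperfilter ℕ) :
    IsClopen {y | y = Y.b j s ∨ ∃ n ∈ W, y = Y.i j s n} := by
  refine ⟨⟨⟨fun c _ => ?_, fun j' s' h => Eventually.of_forall ?_⟩⟩, ⟨by simp, fun j' s' h => ?_⟩⟩
  · filter_upwards [eventually_gt_atTop j]
    rintro j' hj s' n - (h | ⟨n', -, h⟩)
    · cases h
    · cases h; omega
  · rintro n (h' | ⟨n', -, h'⟩)
    · cases h'
    · cases h'; simp at h
  · have : j' = j ∧ s' = s := by simpa using h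
    obtain ⟨rfl, rfl⟩ := this
    filter_upwards [hW] with n hn
    exact Or.inr ⟨n, hn, rfl⟩

lemma clopen_i (j n : ℕ) (S : Set Y) : IsClopen {y | y ∈ S ∧ ∃ s, y = Y.i j s n} := by
  refine ⟨⟨⟨fun c _ => ?_, fun j' s' _ => ?_⟩⟩, ⟨by simp, by simp⟩⟩
  · filter_upwards [eventually_gt_atTop j]
    rintro j' hj s' n - ⟨-, s, h⟩
    cases h; omega
  · filter_upwards [ne_ev n]
    rintro n' hn ⟨-, s, h⟩
    cases h; exact hn rfl

lemma base {U : Set Y} (hU : IsOpen U) {y : Y} (hy : y ∈ U) : ∃ C, IsClopen C ∧ y ∈ C ∧ C ⊆ U := by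
  cases y with
  | z a =>
    obtain ⟨k, hk⟩ := eventually_atTop.1 (hU.1 a hy)
    refine ⟨_, clopen_z a k, Or.inl rfl, ?_⟩
    rintro _ (rfl | ⟨j, s, n, h, e, rfl⟩)
    · exact hy
    · exact hk j h s n e
  | b j s =>
    refine ⟨_, clopen_b j s (hU.2 j s hy), Or.inl rfl, ?_⟩
    rintro _ (rfl | ⟨n, h, rfl⟩)
    · exact hy
    · exact h
  | i j s n => exact ⟨_, clopen_i j n {Y.i j s n}, ⟨rfl, s, rfl⟩, fun y h => h.1 ▸ hy⟩

instance : T1Space Y := ⟨fun y => ⟨⟨fun a _ => by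
    cases y with
    | i j s n =>
      filter_upwards [eventually_gt_atTop j]
      rintro j' hj s' n' - h
      cases h; omega
    | _ => simp, fun j' s' _ => by
    cases y with
    | i j s n =>
      filter_upwards [ne_ev n]
      rintro n' hn h
      cases h; exact hn rfl
    | _ => simp⟩⟩⟩

lemma ind {X : Type*} [TopologicalSpace X] {C : Set X} (hC : IsClopen C) :
    ∃ f : X → unitInterval, Continuous f ∧ EqOn f 0 C ∧ EqOn f 1 Cᶜ := by
  classical
  refine ⟨fun x => if x ∈ C then 0 else 1, ?_, fun x hx => if_pos hx, fun x hx => if_neg hx⟩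
  exact Continuous.if (by simp [hC.frontier_eq]) continuous_const continuous_const

lemma fclosed_iInter {X : Type*} [TopologicalSpace X] {C : ℕ → Set X} (hC : ∀ n, IsClopen (C n)) :
    FClosed (⋂ n, C n) := by
  choose f h1 h2 h3 using fun n => ind (hC n)
  let g : X → (ℕ → unitInterval) := fun x n => f n x
  have hg : Continuous g := continuous_pi h1
  letI := TopologicalSpace.metrizableSpaceMetric (ℕ → unitInterval)
  refine ⟨fun x => ⟨min (dist (g x) 0) 1, le_min dist_nonneg zero_le_one, min_le_right _ _⟩,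
    Continuous.subtype_mk ((hg.dist continuous_const).min continuous_const) _, ?_⟩
  ext x
  simp only [mem_iInter, mem_preimage, mem_singleton_iff, Subtype.ext_iff]
  constructor
  · intro h
    have : g x = 0 := funext fun n => h2 n (h n)
    simp [this]
  · intro h n
    have h' : dist (g x) 0 = 0 := by
      rcases min_eq_iff.1 h with h | h
      · exact h.1
      · simp at h
    by_contra hh
    have := (congrFun (dist_eq_zero.1 h') n).symm.trans (h3 n hh)
    simp at this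

lemma zpart (S : Set Y) : FClosed {y | y ∈ S ∧ ∃ a, y = Y.z a} := by
  let C : ℕ → Set Y := fun k => {y | match y with
    | Y.z a => Y.z a ∈ S
    | Y.b j s => k ≤ j ∧ ∀ᶠ n in hyperfilter ℕ, Y.z (s n) ∈ S
    | Y.i j s n => k ≤ j ∧ Y.z (s n) ∈ S}
  have hC : ∀ k, IsClopen (C k) := fun k => by
    refine ⟨⟨⟨fun a ha => Eventually.of_forall ?_, fun j s h => ?_⟩⟩, ⟨fun a ha => ?_, fun j s h => ?_⟩⟩
    · rintro j s n rfl h
      exact ha h.2
    · by_cases hk : k ≤ j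
      · have : ¬ ∀ᶠ n in hyperfilter ℕ, Y.z (s n) ∈ S := fun h' => h ⟨hk, h'⟩
        exact (Ultrafilter.eventually_not.2 this).mono fun n hn h' => hn h'.2
      · exact Eventually.of_forall fun n h' => hk h'.1
    · filter_upwards [eventually_ge_atTop k]
      rintro j hj s n rfl
      exact ⟨hj, ha⟩
    · exact h.2.mono fun n hn => ⟨h.1, hn⟩
  convert fclosed_iInter hC using 1
  ext y
  simp only [mem_ofPred_eq, mem_iInter]
  constructor
  · rintro ⟨h, a, rfl⟩ k
    exact h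
  · intro h
    cases y with
    | z a => exact ⟨h 0, a, rfl⟩
    | b j s => exact absurd (h (j + 1)).1 (by omega)
    | i j s n => exact absurd (h (j + 1)).1 (by omega)

lemma bpart (S : Set Y) (j : ℕ) : FClosed {y | y ∈ S ∧ ∃ s, y = Y.b j s} := by
  let C : ℕ → Set Y := fun k => {y | match y with
    | Y.z _ => False
    | Y.b j' s => j' = j ∧ Y.b j s ∈ S
    | Y.i j' s n => j' = j ∧ Y.b j s ∈ S ∧ k ≤ n}
  have hC : ∀ k, IsClopen (C k) := fun k => by
    refine ⟨⟨⟨fun a _ => ?_, fun j s h => Eventually.of_forall ?_⟩⟩, ⟨fun a ha => ha.elim, fun j s h => ?_⟩⟩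
    · filter_upwards [eventually_gt_atTop j] with j' hj s n _ h
      exact hj.ne' h.1
    · exact fun n h' => h ⟨h'.1, h'.2.1⟩
    · exact ((eventually_ge_atTop k).filter_mono Nat.hyperfilter_le_atTop).mono
        fun n hn => ⟨h.1, h.2, hn⟩
  convert fclosed_iInter hC using 1
  ext y
  simp only [mem_ofPred_eq, mem_iInter]
  constructor
  · rintro ⟨h, a, rfl⟩ k
    exact ⟨rfl, h⟩
  · intro h
    cases y with
    | z a => exact (h 0).elim
    | b j' s => obtain ⟨rfl, h'⟩ := h 0; exact ⟨h', s, rfl⟩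
    | i j s n => exact absurd (h (n + 1)).2.2 (by omega)

lemma all_sigma (S : Set Y) : FSigma S := by
  let Z : Option (ℕ ⊕ ℕ × ℕ) → Set Y := fun o => match o with
    | none => {y | y ∈ S ∧ ∃ a, y = Y.z a}
    | some (Sum.inl j) => {y | y ∈ S ∧ ∃ s, y = Y.b j s}
    | some (Sum.inr p) => {y | y ∈ S ∧ ∃ s, y = Y.i p.1 s p.2}
  obtain ⟨e, he⟩ := exists_surjective_nat (Option (ℕ ⊕ ℕ × ℕ))
  refine ⟨fun n => Z (e n), fun n => ?_, ?_⟩
  · show FClosed (Z (e n))
    rcases e n with _ | j | p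
    · exact zpart S
    · exact bpart S j
    · simpa only [iInter_const] using fclosed_iInter fun _ => clopen_i p.1 p.2 S
  · rw [he.iUnion_comp Z]
    ext y
    rw [mem_iUnion]
    constructor
    · intro h
      cases y with
      | z a => exact ⟨none, h, a, rfl⟩
      | b j s => exact ⟨some (Sum.inl j), h, s, rfl⟩
      | i j s n => exact ⟨some (Sum.inr (j, n)), h, s, rfl⟩
    · rintro ⟨_ | j | p, h⟩ <;> exact h.1

lemma all_delta (S : Set Y) : FDelta S := by
  obtain ⟨Z, h, e⟩ := all_sigma Sᶜ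
  refine ⟨fun n => (Z n)ᶜ, fun n => ?_, by rw [← compl_iUnion, ← e, compl_compl]⟩
  obtain ⟨f, hf, e⟩ := h n
  refine ⟨f, hf, ?_⟩
  ext y
  simp [e, unitInterval.pos_iff_ne_zero, unitInterval.le_one']

lemma not_normal : ¬ NormalSpace Y := by
  intro h
  have c1 : IsClosed (range Y.z) := ⟨⟨by simp, by simp⟩⟩
  have c2 : IsClosed {y | ∃ j s, y = Y.b j s} := ⟨⟨by simp, by simp⟩⟩
  obtain ⟨U, V, hU, hV, h1, h2, hd⟩ := normal_separation c1 c2 (by
      rw [disjoint_left]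
      rintro _ ⟨a, rfl⟩ ⟨j, s, h⟩
      cases h)
  choose k hk using fun a => eventually_atTop.1 (hU.1 a (h1 ⟨a, rfl⟩))
  have : ∃ m, (k ⁻¹' {m}).Infinite := by
    by_contra hh
    push Not at hh
    refine Cardinal.not_countable_real ((countable_iUnion fun m => (hh m).countable).mono fun a _ => ?_)
    exact mem_iUnion.2 ⟨k a, rfl⟩
  obtain ⟨m, hm⟩ := this
  let s : ℕ ↪ ℝ := (hm.natEmbedding _).trans (Function.Embedding.subtype _)
  obtain ⟨n, hn⟩ := (hV.2 m s (h2 ⟨m, s, rfl⟩)).exists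
  exact disjoint_left.1 hd (hk (s n) m (le_of_eq (hm.natEmbedding _ n).2) s n rfl) hn

theorem result : ∃ (X : Type) (_ : TopologicalSpace X), CompletelyRegularSpace X ∧ T1Space X ∧
    ¬ NormalSpace X ∧ ¬ PerfectlyNormalSpace X ∧ ∀ E : Set X, OneEmb E := by
  refine ⟨Y, inferInstance, ⟨fun x K hK hx => ?_⟩, inferInstance, not_normal,
    fun h => not_normal inferInstance, fun E => ⟨fun A _ => ⟨Subtype.val '' A, all_sigma _, ?_⟩,
    fun A _ => ⟨Subtype.val '' A, all_delta _, ?_⟩⟩⟩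
  · obtain ⟨C, hC, h1, h2⟩ := base hK.isOpen_compl hx
    obtain ⟨f, a, b, c⟩ := ind hC
    exact ⟨f, a, b h1, fun y hy => c fun h => h2 h hy⟩
  all_goals exact (preimage_image_eq _ Subtype.val_injective).symm

end Pool.Agent.Results.MP_493890_gt.Levels
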